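import Mathlib
import Pool.Agent.H8.Grz

set_option autoImplicit false

namespace Pool.Agent.Results.MP_a16b96_lc.ZFC

open Set Filter Topology Function Pool.Agent.H8.Grz
open scoped Cardinal

/-- universally meager -/
def UM {X : Type} [MeasurableSpace X] (A : Set X) : Prop :=
  ∀ (Y : Type) [TopologicalSpace Y] [PolishSpace Y] [PerfectSpace Y] [MeasurableSpace Y]
    [BorelSpace Y] (f : X ≃ᵐ Y), IsMeagre (f '' A)

/-- countably perfectly meager -/
def PM {X : Type} [TopologicalSpace X] (A : Set X) : Prop :=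
  ∀ P : ℕ → Set X, (∀ n, Perfect (P n) ∧ (P n).Nonempty) →
    ∃ C : ℕ → Set X, (∀ k, IsClosed (C k)) ∧ A ⊆ ⋃ k, C k ∧
      ∀ n, IsMeagre (Subtype.val ⁻¹' (⋃ k, C k) : Set (P n))

theorem result : ∃ (X : Type) (_ : TopologicalSpace X) (_ : PolishSpace X) (_ : PerfectSpace X)
    (_ : MeasurableSpace X) (_ : BorelSpace X) (A : Set X), UM A ∧ ¬ PM A := by
  obtain ⟨_, ⟨Y, _, _, _, A, hA, rfl⟩, hm⟩ := Cardinal.lt_wf.has_min {κ | ∃ (Y : Type)
    (_ : TopologicalSpace Y) (_ : PolishSpace Y) (_ : PerfectSpace Y) (A : Set Y),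
      ¬ IsMeagre A ∧ #A = κ} ⟨_, ℝ, _, inferInstance, inferInstance, univ,
        not_isMeagre_of_isOpen isOpen_univ univ_nonempty, rfl⟩
  have h1 : ∀ (Z : Type) [TopologicalSpace Z] [PolishSpace Z] [PerfectSpace Z] (s : Set Z),
      #s < #A → IsMeagre s := fun Z _ _ _ s hs => by_contra fun h => hm _ ⟨Z, _, ‹_›, ‹_›, s, h, rfl⟩ hs
  borelize Y
  obtain ⟨M, hM, h2⟩ := univ_gd Y
  obtain ⟨X, x1, x2⟩ := main (P := residual Y) (A := A) hA (fun c => (M c)ᶜ) hM.compl fun s hs => by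
    obtain ⟨t, t1, t2, t3⟩ := mem_residual.1 (h1 Y s hs)
    obtain ⟨c, rfl⟩ := h2 t t2
    exact ⟨c, subset_compl_comm.1 t1, (mem_residual.2 ⟨_, le_rfl, t2, t3⟩ : M c ∈ residual Y)
      |> fun h => mem_of_superset h fun y hy => not_not.2 hy⟩
  have pf : ∀ t : ℕ → Bool, Perfect (range (Prod.mk t : Y → _)) := fun t => by
    have e : range (Prod.mk t : Y → _) = Prod.fst ⁻¹' {t} := by ext ⟨a, b⟩; simp [eq_comm]
    refine ⟨e ▸ isClosed_singleton.preimage continuous_fst, ?_⟩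
    rintro _ ⟨y, rfl⟩
    refine accPt_iff_nhds.2 fun U hU => ?_
    obtain ⟨z, z1, z2⟩ := accPt_iff_nhds.1 (PerfectSpace.univ_preperfect y trivial) _
      ((Continuous.prodMk_right t).continuousAt hU)
    exact ⟨(t, z), ⟨z1.1, z, rfl⟩, fun h => z2 (Prod.ext_iff.1 h).2⟩
  refine ⟨(ℕ → Bool) × Y, inferInstance, {},
    ⟨fun p _ => (pf p.1).acc p ⟨p.2, rfl⟩ |>.mono (by simp)⟩, inferInstance, inferInstance, X,
    fun Z _ _ _ _ _ φ => x1 Z (residual Z) φ (fub_res _ _) (fub_res _ _)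
      (h1 Z) fun w => residual_of_dense_open isOpen_compl_singleton (dense_compl_singleton w),
    fun H => hA ?_⟩
  obtain ⟨q, hq⟩ := Pool.Agent.H8.Tau.fin_ctble.exists_eq_range ⟨fun _ => false, by simp⟩
  obtain ⟨a, -⟩ := nonempty_iff_ne_empty.2 fun e : A = ∅ => hA (e ▸ .empty)
  obtain ⟨C, c1, c2, c3⟩ := H (fun m => range (Prod.mk (q m))) fun m => ⟨pf _, _, a, rfl⟩
  refine (isMeagre_iUnion fun m => (c3 m).preimage_of_isOpenMap
    (f := fun y => ⟨(q m, y), y, rfl⟩) (by fun_prop)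
    (isEmbedding_prodMkRight (q m)).toHomeomorph.isOpenMap).mono
    fun a ha => ?_
  obtain ⟨n, t, h3, h4⟩ := x2 a ha C c1 c2
  obtain ⟨m, rfl⟩ := hq.le h3
  exact mem_iUnion.2 ⟨m, mem_iUnion.2 ⟨n, h4⟩⟩

end Pool.Agent.Results.MP_a16b96_lc.ZFC
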